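import Pool.Agent.W952.LP.Stm

/-! # Project LP: points of the arcs and fibres of the first coordinate -/

set_option autoImplicit false

namespace Pool.Agent.W85.LP

open Pool.Agent.W952.LP

lemma half_pow_inj {g h : ℕ} (e : (1 / 2 : ℝ) ^ g = (1 / 2 : ℝ) ^ h) : g = h :=
  pow_right_injective₀ (by norm_num) (by norm_num) e

lemma eps_pos (G : Gd) (g : ℕ) : 0 < G.eps g := by
  unfold Gd.eps
  positivity

theorem inj : S_inj := by
  intro G g h i j y y' e
  have h1 : g = h := half_pow_inj (congrArg Prod.fst e)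
  subst h1
  have h2 : G.eps g * y = G.eps g * y' := congrArg (fun p : ℝ × ℝ × ℝ => p.2.1) e
  have h3 : y = y' := mul_left_cancel₀ (eps_pos G g).ne' h2
  subst h3
  have h4 : G.eps g * (i * (y * (1 - y))) = G.eps g * (j * (y * (1 - y))) :=
    congrArg (fun p : ℝ × ℝ × ℝ => p.2.2) e
  have h5 := mul_left_cancel₀ (eps_pos G g).ne' h4
  refine ⟨rfl, rfl, ?_⟩
  by_cases h6 : y * (1 - y) = 0
  · rcases mul_eq_zero.1 h6 with h7 | h7
    · exact Or.inr (Or.inl h7)
    · exact Or.inr (Or.inr (sub_eq_zero.1 h7).symm)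
  · left
    exact_mod_cast mul_right_cancel₀ h6 h5

theorem fib : S_fib := by
  intro G p hp
  rcases hp with ⟨x, hx0, hx1, rfl⟩ | ⟨g, i, y, hi, hy, rfl⟩
  · refine ⟨hx0, hx1, fun _ => rfl, fun g hg => Or.inl ?_⟩
    change x = (1 / 2 : ℝ) ^ g at hg
    rw [hg]
  · refine ⟨?_, ?_, fun h => absurd rfl (h g), fun g' hg => ?_⟩
    · change (0 : ℝ) ≤ (1 / 2 : ℝ) ^ g
      positivity
    · exact pow_le_one₀ (by norm_num) (by norm_num)
    · have h1 : g = g' := half_pow_inj hg
      subst h1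
      rcases hy.1.eq_or_lt with h0 | h0
      · left
        rw [← h0]
        simp [Gd.pt]
      · right
        exact ⟨i, y, hi, h0, hy, rfl⟩

end Pool.Agent.W85.LP
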