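import Pool.Agent.W533.LP.Stm

/-! # LP-VB: the variance bound -/

set_option autoImplicit false
set_option maxHeartbeats 4000000

namespace Pool.Agent.W85.LP.VB

open MeasureTheory ProbabilityTheory Pool.Agent.W533.LP

/-! ### sums -/

theorem sum_tel (u Φ : ℝ) (hu : 1 ≤ u) (h φ : ℕ → ℝ) (h1 : ∀ k : ℕ, 1 ≤ k → u < k →
    h k ≤ φ k - φ (k + 1)) (h2 : ∀ k : ℕ, u < k → φ k ≤ Φ) (h3 : ∀ k : ℕ, 1 ≤ k → 0 ≤ φ k) (m : ℕ) :
    ∑ i ∈ Finset.range m, (if u < (i : ℝ) + 1 then h (i + 1) else 0) ≤ Φ := by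
  by_cases hΦ : 0 ≤ Φ
  swap
  · -- impossible: some `k > u`
    obtain ⟨k, hk⟩ := exists_nat_gt u
    have hk1 : 1 ≤ k := by
      by_contra hcon
      have : k = 0 := by omega
      rw [this] at hk
      norm_num at hk
      linarith
    exact absurd ((h3 k hk1).trans (h2 k hk)) hΦ
  have key : ∀ m : ℕ, ∑ i ∈ Finset.range m, (if u < (i : ℝ) + 1 then h (i + 1) else 0)
      ≤ Φ - (if u < (m : ℝ) + 1 then φ (m + 1) else Φ) := by
    intro m
    induction m with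
    | zero =>
      rw [if_neg (by norm_num; linarith)]
      simp
    | succ m ih =>
      rw [Finset.sum_range_succ]
      by_cases hm : u < (m : ℝ) + 1
      · rw [if_pos hm] at ih ⊢
        have hm2 : u < ((m + 1 : ℕ) : ℝ) + 1 := by push_cast; linarith
        rw [if_pos hm2]
        have := h1 (m + 1) (by omega) (by push_cast; exact hm)
        linarith
      · rw [if_neg hm] at ih ⊢
        split_ifs with hm2
        · have := h2 (m + 1 + 1) (by push_cast at hm2 ⊢; linarith)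
          linarith
        · linarith
  refine (key m).trans ?_
  split_ifs with hm
  · have := h3 (m + 1) (by omega)
    linarith
  · linarith

theorem sum_le (u : ℝ) (hu : 1 ≤ u) (m : ℕ) :
    ∑ i ∈ Finset.range m, (if (i : ℝ) + 1 ≤ u then (1 : ℝ) else 0) ≤ u := by
  have key : ∀ m : ℕ, ∑ i ∈ Finset.range m, (if (i : ℝ) + 1 ≤ u then (1 : ℝ) else 0) ≤ m ∧
      ∑ i ∈ Finset.range m, (if (i : ℝ) + 1 ≤ u then (1 : ℝ) else 0) ≤ u := by
    intro m
    induction m with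
    | zero => simp; linarith
    | succ m ih =>
      rw [Finset.sum_range_succ]
      push_cast
      split_ifs with h
      · exact ⟨by linarith [ih.1], by linarith [ih.1]⟩
      · exact ⟨by linarith [ih.1], by linarith [ih.2]⟩
  exact (key m).2

theorem tel_sq (k : ℕ) (hk : 1 ≤ k) : 1 / (k : ℝ) ^ 2 ≤ 2 / (k : ℝ) - 2 / ((k + 1 : ℕ) : ℝ) := by
  have hk1 : (1 : ℝ) ≤ k := by exact_mod_cast hk
  push_cast
  rw [div_sub_div _ _ (by positivity) (by positivity), div_le_div_iff₀ (by positivity)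
    (by positivity)]
  nlinarith [mul_nonneg (by linarith : (0 : ℝ) ≤ k) (by linarith : (0 : ℝ) ≤ (k : ℝ) - 1)]

theorem tel_32 (k : ℕ) (hk : 1 ≤ k) :
    Real.sqrt k / (k : ℝ) ^ 2 ≤ 6 / Real.sqrt k - 6 / Real.sqrt ((k + 1 : ℕ) : ℝ) := by
  have hk1 : (1 : ℝ) ≤ k := by exact_mod_cast hk
  push_cast
  set x := Real.sqrt k with hx
  set y := Real.sqrt ((k : ℝ) + 1) with hy
  have hx2 : x ^ 2 = k := Real.sq_sqrt (by linarith)
  have hy2 : y ^ 2 = k + 1 := Real.sq_sqrt (by linarith)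
  have hx0 : 0 < x := Real.sqrt_pos.2 (by linarith)
  have hy0 : 0 < y := Real.sqrt_pos.2 (by linarith)
  have hxy : x ≤ y := Real.sqrt_le_sqrt (by linarith)
  have hy2x : y ^ 2 ≤ 2 * x ^ 2 := by rw [hx2, hy2]; linarith
  have hyx : y ≤ 3 / 2 * x := by nlinarith
  have h1 : (k : ℝ) ^ 2 = x ^ 4 := by rw [← hx2]; ring
  rw [h1, div_sub_div _ _ hx0.ne' hy0.ne', div_le_div_iff₀ (by positivity) (by positivity)]
  -- `x * (x * y) ≤ 6 (y - x) x ^ 4`
  have h2 : (y - x) * (y + x) = 1 := by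
    have : (y - x) * (y + x) = y ^ 2 - x ^ 2 := by ring
    rw [this, hx2, hy2]; ring
  have h3 : x * (x * y) ≤ (6 * y - x * 6) * x ^ 4 := by
    have h4 : y * (y + x) ≤ 6 * x ^ 2 := by nlinarith
    have h5 : x * (x * y) * (y + x) ≤ (6 * y - x * 6) * x ^ 4 * (y + x) := by
      have : (6 * y - x * 6) * x ^ 4 * (y + x) = 6 * x ^ 4 * ((y - x) * (y + x)) := by ring
      rw [this, h2]
      nlinarith [mul_le_mul_of_nonneg_left h4 (sq_nonneg x)]
    exact le_of_mul_le_mul_right h5 (by linarith)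
  linarith

/-! ### the law of one boundary weight -/

theorem one_law {Ω : Type} [MeasurableSpace Ω] {μ : Measure Ω} {q a : ℝ} {I J : ℕ → Ω → ℕ}
    {W : ℕ → ℕ → Ω → ℕ} (hS : Sys0 μ q a I J W) (i : ℕ) :
    GeoFam μ (fun _ : Fin 1 => a) (fun _ => I i) where
  prob := hS.prob
  pos := fun _ => hS.pos (Sum.inl i)
  meas := fun _ => hS.meas (Sum.inl i)
  indep := hS.indep.precomp (g := fun _ : Fin 1 => Sum.inl i)
    (fun x y _ => Subsingleton.elim x y)
  law := fun _ k => hS.law (Sum.inl i) k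

theorem cs {Ω : Type} [MeasurableSpace Ω] {μ : Measure Ω} [IsProbabilityMeasure μ] {f : Ω → ℝ}
    (hf : MemLp f 2 μ) (hf0 : ∀ ω, 0 ≤ f ω) (H : Set Ω) {K : ℝ} (hK : 0 ≤ K)
    (hf2 : ∫ ω, f ω ^ 2 ∂μ ≤ K ^ 2) : ∫ ω in H, f ω ∂μ ≤ K * Real.sqrt (μ.real H) := by
  have h1 := integral_mul_le_Lp_mul_Lq_of_nonneg (μ := μ.restrict H) (p := 2) (q := 2)
    Real.HolderConjugate.two_two (f := fun _ => (1 : ℝ)) (g := f)
    (Filter.Eventually.of_forall fun _ => zero_le_one) (Filter.Eventually.of_forall hf0)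
    (memLp_const 1) (by
      have : ENNReal.ofReal 2 = 2 := by norm_num
      rw [this]
      exact hf.restrict H)
  have h2 : ∫ ω in H, (1 : ℝ) * f ω ∂μ = ∫ ω in H, f ω ∂μ := by simp
  rw [h2] at h1
  refine h1.trans ?_
  have h3 : ∫ ω in H, f ω ^ (2 : ℝ) ∂μ ≤ K ^ 2 := by
    have e1 : ∀ ω, f ω ^ (2 : ℝ) = f ω ^ 2 := fun ω => by
      rw [← Real.rpow_natCast]; norm_num
    simp_rw [e1]
    exact (setIntegral_le_integral hf.integrable_sq
      (Filter.Eventually.of_forall fun ω => sq_nonneg _)).trans hf2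
  have h4 : (∫ ω in H, f ω ^ (2 : ℝ) ∂μ) ^ (1 / 2 : ℝ) ≤ K := by
    rw [← Real.sqrt_eq_rpow]
    calc Real.sqrt (∫ ω in H, f ω ^ (2 : ℝ) ∂μ) ≤ Real.sqrt (K ^ 2) := Real.sqrt_le_sqrt h3
      _ = K := Real.sqrt_sq hK
  have h5 : (∫ ω in H, (1 : ℝ) ^ (2 : ℝ) ∂μ) ^ (1 / 2 : ℝ) = Real.sqrt (μ.real H) := by
    rw [← Real.sqrt_eq_rpow]
    simp
  rw [h5, mul_comm]
  exact mul_le_mul_of_nonneg_right h4 (Real.sqrt_nonneg _)

theorem sq_le (hM : PMom) (A : ℝ) (hA : A < 1) {Ω : Type} [MeasurableSpace Ω] {μ : Measure Ω}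
    {q a : ℝ} {I J : ℕ → Ω → ℕ} {W : ℕ → ℕ → Ω → ℕ} (haA : a ≤ A) (hS : Sys0 μ q a I J W)
    (i : ℕ) (H : Set Ω) : ∫ ω in H, ((I i ω : ℝ) + 1) ∂μ ≤ 2 / (1 - a) * Real.sqrt (μ.real H) := by
  have := hS.prob
  obtain ⟨_, _, hM⟩ := hM A hA
  obtain ⟨h1, h2, h3, _⟩ := hM μ a 1 (fun _ => I i) haA (one_law hS i)
  simp only [Finset.univ_unique, Finset.sum_singleton, Nat.cast_one, one_mul] at h1 h2 h3
  have ha0 : 0 ≤ a := (hS.pos (Sum.inl i)).1
  have ha1 : a < 1 := (hS.pos (Sum.inl i)).2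
  have hm2 : MemLp (fun ω => (I i ω : ℝ)) 2 μ := h1.mono_exponent (by norm_num)
  have hint : Integrable (fun ω => (I i ω : ℝ)) μ := hm2.integrable (by norm_num)
  have hm3 : MemLp (fun ω => (I i ω : ℝ) + 1) 2 μ := hm2.add (memLp_const 1)
  refine cs hm3 (fun ω => by positivity) H (by
    have : 0 < 1 - a := by linarith
    positivity) ?_
  have e1 : ∫ ω, ((I i ω : ℝ) + 1) ^ 2 ∂μ = variance (fun ω => (I i ω : ℝ)) μ
      + (∫ ω, (I i ω : ℝ) ∂μ + 1) ^ 2 := by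
    have e2 := variance_eq_sub hm2
    have e3 : ∫ ω, ((I i ω : ℝ) + 1) ^ 2 ∂μ = ∫ ω, (I i ω : ℝ) ^ 2 ∂μ + 2 * ∫ ω, (I i ω : ℝ) ∂μ + 1 := by
      have : ∀ ω, ((I i ω : ℝ) + 1) ^ 2 = (I i ω : ℝ) ^ 2 + 2 * (I i ω : ℝ) + 1 := fun ω => by ring
      simp_rw [this]
      have i1 : Integrable (fun ω => (I i ω : ℝ) ^ 2) μ := hm2.integrable_sq
      have i2 : Integrable (fun ω => 2 * (I i ω : ℝ)) μ := hint.const_mul 2
      have i3 : Integrable (fun ω => (I i ω : ℝ) ^ 2 + 2 * (I i ω : ℝ)) μ := i1.add i2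
      rw [integral_add i3 (integrable_const _), integral_add i1 i2, integral_const_mul]
      simp
    rw [e3, e2]
    simp only [Pi.pow_apply]
    ring
  rw [e1, h2, h3]
  unfold vari mean
  have hpos : 0 < 1 - a := by linarith
  have e4 : a / (1 - a) ^ 2 + (a / (1 - a) + 1) ^ 2 = (a + 1) / (1 - a) ^ 2 := by
    field_simp; ring
  rw [e4, div_pow]
  gcongr
  nlinarith

/-! ### the variance function -/

theorem vari_lip {a t : ℝ} (ha0 : 0 ≤ a) (ha1 : a < 1) (ht0 : 0 ≤ t) (ht1 : t < 1)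
    (h : (1 - t) / 2 ≤ 1 - a) : |vari a - vari t| ≤ 4 / (1 - t) ^ 4 * |a - t| := by
  have h1 : vari a - vari t = (a - t) * ((1 - a * t) / ((1 - a) ^ 2 * (1 - t) ^ 2)) := by
    unfold vari
    have : (1 - a) ≠ 0 := by linarith
    have : (1 - t) ≠ 0 := by linarith
    field_simp
    ring
  have hpa : 0 < 1 - a := by linarith
  have hpt : 0 < 1 - t := by linarith
  have hat : 0 ≤ 1 - a * t := by nlinarith
  rw [h1, abs_mul, mul_comm, abs_of_nonneg (div_nonneg hat (by positivity))]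
  apply mul_le_mul_of_nonneg_right _ (abs_nonneg _)
  have h2 : ((1 - t) / 2) ^ 2 ≤ (1 - a) ^ 2 := by
    have : 0 ≤ (1 - t) / 2 := by linarith
    gcongr
  rw [div_le_div_iff₀ (by positivity) (by positivity)]
  have h3 : 1 - a * t ≤ 1 := by nlinarith
  have h4 : (1 - t) ^ 4 ≤ 4 * ((1 - a) ^ 2 * (1 - t) ^ 2) := by
    have : (1 - t) ^ 4 = 4 * (((1 - t) / 2) ^ 2 * (1 - t) ^ 2) := by ring
    rw [this]
    gcongr
  calc (1 - a * t) * (1 - t) ^ 4 ≤ 1 * (1 - t) ^ 4 := by gcongr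
    _ ≤ _ := by linarith

/-! ### the main estimate -/

theorem final {V u A B : ℝ} (hV : 0 ≤ V) (hu : 0 ≤ u) (hB : 0 ≤ B)
    (h : V ≤ A * u + B * (Real.sqrt u * Real.sqrt V)) : V ≤ (2 * A + B ^ 2) * u := by
  have h1 : Real.sqrt u ^ 2 = u := Real.sq_sqrt hu
  have h2 : Real.sqrt V ^ 2 = V := Real.sq_sqrt hV
  nlinarith [sq_nonneg (B * Real.sqrt u - Real.sqrt V)]

theorem aux_qa {t a : ℝ} (h0 : 0 < t) (h : (t + t ^ 2) / 2 ≤ a) : t ^ 2 ≤ (1 + t) / 2 * a := by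
  have h1 : (1 + t) / 2 * ((t + t ^ 2) / 2) ≤ (1 + t) / 2 * a := by gcongr
  have h2 : 0 ≤ t * (1 - t) ^ 2 := by positivity
  linarith [show (1 + t) / 2 * ((t + t ^ 2) / 2) - t ^ 2 = t * (1 - t) ^ 2 / 4 by ring]

theorem aux_sq {V k : ℝ} (hV : 0 ≤ V) (hk : 0 ≤ k) : V + k ≤ (Real.sqrt V + Real.sqrt k) ^ 2 := by
  have h1 := Real.sq_sqrt hV
  have h2 := Real.sq_sqrt hk
  have h3 := mul_nonneg (Real.sqrt_nonneg V) (Real.sqrt_nonneg k)
  have h4 : (Real.sqrt V + Real.sqrt k) ^ 2 = Real.sqrt V ^ 2 + Real.sqrt k ^ 2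
    + 2 * (Real.sqrt V * Real.sqrt k) := by ring
  rw [h4, h1, h2]; linarith

theorem pVB (h1 : PT1) (h2 : PVarId) (h3 : PMom) : PVB := by
  intro q hq0 hq1
  obtain ⟨C1, hC1, hT⟩ := h1 q hq0 hq1
  obtain ⟨t, ht⟩ : ∃ t, t = Real.sqrt q := ⟨_, rfl⟩
  rw [← ht] at hT ⊢
  have ht2 : t ^ 2 = q := by rw [ht]; exact Real.sq_sqrt hq0.le
  have ht0 : 0 < t := by rw [ht]; exact Real.sqrt_pos.2 hq0
  have ht1 : t < 1 := by nlinarith
  have hqt : q < t := by nlinarith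
  have hdd : dd q ≤ (t - q) / 4 ∧ dd q ≤ (1 - t) / 4 := by
    unfold dd
    rw [← ht]
    exact ⟨by linarith [min_le_left (t - q) (1 - t)], by linarith [min_le_right (t - q) (1 - t)]⟩
  obtain ⟨θ, hθ⟩ : ∃ θ, θ = 1 - t := ⟨_, rfl⟩
  have hθ0 : 0 < θ := by linarith
  have hθ1 : θ < 1 := by linarith
  obtain ⟨A, hA⟩ : ∃ A, A = 16 / θ ^ 4 + 16 / θ ^ 2 * (1 + 6 * C1) := ⟨_, rfl⟩
  obtain ⟨B, hB⟩ : ∃ B, B = 16 / θ ^ 2 * (2 * C1) := ⟨_, rfl⟩
  have hB0 : 0 ≤ B := by rw [hB]; positivity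
  have hA1 : 1 ≤ A := by
    rw [hA]
    have e1 : 1 ≤ 16 / θ ^ 4 := by
      rw [le_div_iff₀ (by positivity)]
      have : θ ^ 4 ≤ 1 := pow_le_one₀ hθ0.le hθ1.le
      linarith
    have e2 : 0 ≤ 16 / θ ^ 2 * (1 + 6 * C1) := by positivity
    linarith
  refine ⟨(2 * A + B ^ 2) * C1, by nlinarith [sq_nonneg B], ?_⟩
  intro Ω _ μ a I J W ha hS m n hn hnm hmn
  have hprob := hS.prob
  obtain ⟨V, hV⟩ : ∃ V, V = variance (fun ω => (Gr I J W m n ω : ℝ)) μ := ⟨_, rfl⟩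
  have hV0 : 0 ≤ V := hV ▸ variance_nonneg _ _
  -- the parameter
  have ha' := abs_le.1 ha
  have haq : (t + q) / 2 ≤ a := by linarith [hdd.1]
  have ha1 : a ≤ (1 + t) / 2 := by linarith [hdd.2]
  have ha0 : 0 < a := by linarith
  have haqq : q < a := by linarith
  have ha11 : a < 1 := by linarith
  have hid := (h2 μ q a I J W hq0 haqq ha11 hS m n).2.2.1
  rw [← hV] at hid
  -- the constants
  have hn1 : (1 : ℝ) ≤ n := by exact_mod_cast hn
  have hmn' : (m : ℝ) ≤ 2 * n := by exact_mod_cast hmn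
  obtain ⟨x, hx⟩ : ∃ x, x = |(m : ℝ) - n| + n * |a - t| := ⟨_, rfl⟩
  have hx0 : 0 ≤ x := by rw [hx]; positivity
  obtain ⟨w, hw⟩ : ∃ w, w = (n : ℝ) ^ (1 / 3 : ℝ) := ⟨_, rfl⟩
  have hw1 : 1 ≤ w := by rw [hw]; exact Real.one_le_rpow hn1 (by norm_num)
  have hw3 : w ^ 3 = n := by
    rw [hw, ← Real.rpow_natCast, ← Real.rpow_mul (by linarith)]
    norm_num
  have hw2 : w ^ 2 = (n : ℝ) ^ (2 / 3 : ℝ) := by
    rw [hw, ← Real.rpow_natCast, ← Real.rpow_mul (by linarith)]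
    norm_num
  obtain ⟨u, hu⟩ : ∃ u, u = w ^ 2 + C1 * x := ⟨_, rfl⟩
  have hC1x : 0 ≤ C1 * x := by positivity
  have hu1 : 1 ≤ u := by rw [hu]; linarith [one_le_pow₀ hw1 (n := 2)]
  have huw : w ^ 2 ≤ u := by rw [hu]; linarith
  have hu0 : 0 < u := by linarith
  have hsu : w ≤ Real.sqrt u := Real.le_sqrt_of_sq_le huw
  have hsu2 : Real.sqrt u ^ 2 = u := Real.sq_sqrt hu0.le
  have hnu : (n : ℝ) ≤ Real.sqrt u * u := by
    rw [← hw3]
    have : w ^ 3 = w * w ^ 2 := by ring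
    rw [this]
    exact mul_le_mul hsu huw (by positivity) (Real.sqrt_nonneg _)
  -- the two parts
  have hfirst : (n : ℝ) * vari (q / a) - m * vari a ≤ 16 / θ ^ 4 * x := by
    have hqa : q / a < 1 := (div_lt_one ha0).2 haqq
    have hqa0 : 0 ≤ q / a := by positivity
    have e1 : |q / a - t| ≤ 2 * |a - t| := by
      have : q / a - t = t / a * (t - a) := by rw [← ht2]; field_simp
      rw [this, abs_mul, abs_of_nonneg (by positivity : 0 ≤ t / a), abs_sub_comm]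
      apply mul_le_mul_of_nonneg_right _ (abs_nonneg _)
      rw [div_le_iff₀ ha0]; linarith
    have e2 := vari_lip ha0.le ha11 ht0.le ht1 (by linarith)
    have e3 := vari_lip hqa0 hqa ht0.le ht1 (by
      have : q / a ≤ (1 + t) / 2 := by
        rw [div_le_iff₀ ha0, ← ht2]
        exact aux_qa ht0 (by rw [ht2]; exact haq)
      linarith)
    rw [← hθ] at e2 e3
    have hvt : 0 ≤ vari t ∧ vari t ≤ 16 / θ ^ 4 := by
      unfold vari
      rw [← hθ]
      refine ⟨by positivity, ?_⟩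
      rw [div_le_div_iff₀ (by positivity) (by positivity)]
      have e1 : θ ^ 4 ≤ θ ^ 2 := pow_le_pow_of_le_one hθ0.le hθ1.le (by norm_num)
      have e2 : t * θ ^ 4 ≤ 1 * θ ^ 2 := mul_le_mul ht1.le e1 (by positivity) zero_le_one
      have e3 : 0 ≤ θ ^ 2 := by positivity
      linarith
    have e4 : 4 / θ ^ 4 * |q / a - t| ≤ 8 / θ ^ 4 * |a - t| := by
      have : 8 / θ ^ 4 * |a - t| = 4 / θ ^ 4 * (2 * |a - t|) := by ring
      rw [this]
      gcongr
    have e5 : (n : ℝ) * vari (q / a) - m * vari a = n * (vari (q / a) - vari t)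
        + m * (vari t - vari a) + (n - m) * vari t := by ring
    have e6 : (n : ℝ) * (vari (q / a) - vari t) ≤ n * (8 / θ ^ 4 * |a - t|) :=
      mul_le_mul_of_nonneg_left ((le_abs_self _).trans (e3.trans e4)) (by positivity)
    have e7 : (m : ℝ) * (vari t - vari a) ≤ (2 * n) * (4 / θ ^ 4 * |a - t|) := by
      have : vari t - vari a ≤ 4 / θ ^ 4 * |a - t| := by
        have := neg_le_abs (vari a - vari t)
        linarith
      calc (m : ℝ) * (vari t - vari a) ≤ m * (4 / θ ^ 4 * |a - t|) :=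
            mul_le_mul_of_nonneg_left this (by positivity)
        _ ≤ (2 * n) * (4 / θ ^ 4 * |a - t|) :=
            mul_le_mul_of_nonneg_right hmn' (by positivity)
    have e8 : ((n : ℝ) - m) * vari t ≤ |(m : ℝ) - n| * (16 / θ ^ 4) := by
      have : (n : ℝ) - m ≤ |(m : ℝ) - n| := by rw [abs_sub_comm]; exact le_abs_self _
      calc ((n : ℝ) - m) * vari t ≤ |(m : ℝ) - n| * vari t :=
            mul_le_mul_of_nonneg_right this hvt.1
        _ ≤ _ := mul_le_mul_of_nonneg_left hvt.2 (abs_nonneg _)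
    have e9 : 16 / θ ^ 4 * x = |(m : ℝ) - n| * (16 / θ ^ 4) + n * (8 / θ ^ 4 * |a - t|)
        + (2 * n) * (4 / θ ^ 4 * |a - t|) := by
      rw [hx]; ring
    linarith
  have hterm : ∀ i ∈ Finset.range m, ∫ ω in Hs I J W i m n, ((I i ω : ℝ) + 1) ∂μ ≤
      4 / θ * ((if (i : ℝ) + 1 ≤ u then (1 : ℝ) else 0)
        + C1 * n * (Real.sqrt V * (if u < (i : ℝ) + 1 then 1 / ((i + 1 : ℕ) : ℝ) ^ 2 else 0)
        + (if u < (i : ℝ) + 1 then Real.sqrt ((i + 1 : ℕ) : ℝ) / ((i + 1 : ℕ) : ℝ) ^ 2 else 0))) := by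
    intro i hi
    have e1 := sq_le h3 ((1 + t) / 2) (by linarith) ha1 hS i (Hs I J W i m n)
    have e2 : 2 / (1 - a) ≤ 4 / θ := by
      rw [div_le_div_iff₀ (by linarith) hθ0, hθ]; linarith
    refine e1.trans (mul_le_mul e2 ?_ (Real.sqrt_nonneg _) (by positivity))
    by_cases hiu : (i : ℝ) + 1 ≤ u
    · rw [if_pos hiu, if_neg (not_lt.2 hiu), if_neg (not_lt.2 hiu)]
      have : Real.sqrt (μ.real (Hs I J W i m n)) ≤ 1 := by
        rw [← Real.sqrt_one]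
        exact Real.sqrt_le_sqrt measureReal_le_one
      simpa using this
    · have hiu' : u < (i : ℝ) + 1 := not_le.1 hiu
      rw [if_neg hiu, if_pos hiu', if_pos hiu', zero_add]
      have e3 := hT μ a I J W ha hS m n i hn hnm hmn (Finset.mem_range.1 hi) (by
        rw [← hx]
        have : C1 * x ≤ u := by rw [hu]; linarith [sq_nonneg w]
        linarith)
      rw [← hV] at e3
      push_cast
      set k : ℝ := (i : ℝ) + 1 with hk
      have hk0 : 0 < k := by linarith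
      refine (Real.sqrt_le_sqrt e3).trans ?_
      have e4 : C1 * (n : ℝ) * (Real.sqrt V * (1 / k ^ 2) + Real.sqrt k / k ^ 2)
          = C1 * n * (Real.sqrt V + Real.sqrt k) / k ^ 2 := by ring
      rw [e4, Real.sqrt_le_left (by positivity), div_pow, mul_pow, mul_pow]
      have e5 : (k ^ 2) ^ 2 = k ^ 4 := by ring
      rw [e5]
      apply div_le_div_of_nonneg_right _ (by positivity)
      have e6 : V + k ≤ (Real.sqrt V + Real.sqrt k) ^ 2 := aux_sq hV0 hk0.le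
      have e7 : C1 ≤ C1 ^ 2 := le_self_pow₀ hC1 (by norm_num)
      calc C1 * (n : ℝ) ^ 2 * (V + k) ≤ C1 ^ 2 * n ^ 2 * (Real.sqrt V + Real.sqrt k) ^ 2 := by
            gcongr
        _ = _ := by ring
  have hsum := Finset.sum_le_sum hterm
  rw [← Finset.mul_sum, Finset.sum_add_distrib, ← Finset.mul_sum, Finset.sum_add_distrib,
    ← Finset.mul_sum] at hsum
  have s1 := sum_le u hu1 m
  have s2 := sum_tel u (2 / u) hu1 (fun k => 1 / (k : ℝ) ^ 2) (fun k => 2 / (k : ℝ))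
    (fun k hk _ => tel_sq k hk) (fun k hk => by
      apply div_le_div_of_nonneg_left (by norm_num) hu0 hk.le) (fun k _ => by positivity) m
  have s3 := sum_tel u (6 / Real.sqrt u) hu1 (fun k => Real.sqrt k / (k : ℝ) ^ 2)
    (fun k => 6 / Real.sqrt k) (fun k hk _ => tel_32 k hk) (fun k hk => by
      apply div_le_div_of_nonneg_left (by norm_num) (Real.sqrt_pos.2 hu0)
        (Real.sqrt_le_sqrt hk.le)) (fun k _ => by positivity) m
  have hmean : 0 ≤ mean a ∧ 2 * mean a ≤ 4 / θ := by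
    unfold mean
    have : 0 < 1 - a := by linarith
    refine ⟨by positivity, ?_⟩
    rw [mul_div_assoc', div_le_div_iff₀ this hθ0]
    have e1 : a * θ ≤ 1 * θ := by gcongr
    linarith
  have hSnn : 0 ≤ ∑ i ∈ Finset.range m, ∫ ω in Hs I J W i m n, ((I i ω : ℝ) + 1) ∂μ :=
    Finset.sum_nonneg fun i _ => integral_nonneg fun ω => by positivity
  have hs : 2 * mean a * ∑ i ∈ Finset.range m, ∫ ω in Hs I J W i m n, ((I i ω : ℝ) + 1) ∂μ
      ≤ 16 / θ ^ 2 * (u + C1 * n * (Real.sqrt V * (2 / u) + 6 / Real.sqrt u)) := by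
    have e1 : ∑ i ∈ Finset.range m, ∫ ω in Hs I J W i m n, ((I i ω : ℝ) + 1) ∂μ
        ≤ 4 / θ * (u + C1 * n * (Real.sqrt V * (2 / u) + 6 / Real.sqrt u)) := by
      refine hsum.trans ?_
      have := Real.sqrt_nonneg V
      gcongr
    calc 2 * mean a * ∑ i ∈ Finset.range m, ∫ ω in Hs I J W i m n, ((I i ω : ℝ) + 1) ∂μ
        ≤ 4 / θ * (4 / θ * (u + C1 * n * (Real.sqrt V * (2 / u) + 6 / Real.sqrt u))) :=
          mul_le_mul hmean.2 e1 hSnn (by positivity)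
      _ = _ := by ring
  have hk1 : (n : ℝ) * (2 / u) ≤ 2 * Real.sqrt u := by
    rw [mul_div_assoc', div_le_iff₀ hu0]; linarith
  have hk2 : (n : ℝ) * (6 / Real.sqrt u) ≤ 6 * u := by
    rw [mul_div_assoc', div_le_iff₀ (Real.sqrt_pos.2 hu0)]; linarith
  have hmain : V ≤ A * u + B * (Real.sqrt u * Real.sqrt V) := by
    have e1 : C1 * n * (Real.sqrt V * (2 / u) + 6 / Real.sqrt u)
        ≤ C1 * (2 * Real.sqrt u * Real.sqrt V + 6 * u) := by
      have : C1 * n * (Real.sqrt V * (2 / u) + 6 / Real.sqrt u)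
        = C1 * ((n * (2 / u)) * Real.sqrt V + n * (6 / Real.sqrt u)) := by ring
      rw [this]
      have := Real.sqrt_nonneg V
      gcongr
    have e2 : 16 / θ ^ 2 * (u + C1 * n * (Real.sqrt V * (2 / u) + 6 / Real.sqrt u))
        ≤ 16 / θ ^ 2 * (u + C1 * (2 * Real.sqrt u * Real.sqrt V + 6 * u)) := by gcongr
    have e3 : 16 / θ ^ 4 * x ≤ 16 / θ ^ 4 * u := by
      have : x ≤ u := by
        have := mul_le_mul_of_nonneg_right hC1 hx0
        rw [hu]; linarith [sq_nonneg w]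
      gcongr
    have e4 : A * u + B * (Real.sqrt u * Real.sqrt V) = 16 / θ ^ 4 * u
        + 16 / θ ^ 2 * (u + C1 * (2 * Real.sqrt u * Real.sqrt V + 6 * u)) := by
      rw [hA, hB]; ring
    rw [e4]
    linarith
  have hfin := final hV0 hu0.le hB0 hmain
  rw [← hV]
  refine hfin.trans ?_
  rw [mul_assoc]
  apply mul_le_mul_of_nonneg_left _ (by nlinarith [sq_nonneg B])
  rw [hu, hw2, hx]
  have e1 : 0 ≤ (n : ℝ) ^ (2 / 3 : ℝ) := by positivity
  have e2 := mul_le_mul_of_nonneg_right hC1 e1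
  linarith

end Pool.Agent.W85.LP.VB
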